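import Pool.Agent.W593.IR.Stm

set_option autoImplicit false

namespace Pool.Agent.W750.IR

open Pool.Agent.W593.IR

theorem hasDeriv_log (H : ℝ) (hH : 1 < H) :
    HasDerivAt (fun H : ℝ => (H - 1) * Real.log (1 - 1 / H)) (Real.log (1 - 1 / H) + 1 / H) H := by
  have hH0 : H ≠ 0 := by linarith
  have hpos : 0 < 1 - 1 / H := by
    rw [sub_pos, div_lt_one (by linarith)]; exact hH
  have h1 : HasDerivAt (fun H : ℝ => 1 - 1 / H) (1 / H ^ 2) H := by
    have h := (hasDerivAt_inv hH0).const_sub 1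
    simp only [one_div]
    have e : -(-(H ^ 2)⁻¹) = (H ^ 2)⁻¹ := neg_neg _
    rw [e] at h
    exact h
  have h2 := h1.log hpos.ne'
  have h3 : HasDerivAt (fun H : ℝ => H - 1) 1 H := (hasDerivAt_id H).sub_const 1
  have h4 := h3.mul h2
  refine h4.congr_deriv ?_
  have hne : H - 1 ≠ 0 := by linarith
  have e2 : 1 - 1 / H = (H - 1) / H := by field_simp
  rw [one_mul]
  congr 1
  rw [e2]
  field_simp

theorem lant : S_LANT := by
  intro g h hg hgh
  rcases eq_or_lt_of_le hg with rfl | hg1
  · have e : (1 - 1 / (1 : ℝ)) ^ ((1 : ℝ) - 1) = 1 := by norm_num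
    rw [e]
    have hh : 0 < h := by linarith
    apply Real.rpow_le_one
    · rw [sub_nonneg, div_le_one hh]; exact hgh
    · have : 0 ≤ 1 / h := by positivity
      linarith
    · linarith
  · have hh1 : 1 < h := lt_of_lt_of_le hg1 hgh
    have hpos : ∀ t : ℝ, 1 < t → 0 < 1 - 1 / t := by
      intro t ht
      rw [sub_pos, div_lt_one (by linarith)]; exact ht
    have hanti : AntitoneOn (fun H : ℝ => (H - 1) * Real.log (1 - 1 / H)) (Set.Ici g) := by
      apply antitoneOn_of_deriv_nonpos (convex_Ici g)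
      · intro t ht
        exact (hasDeriv_log t (lt_of_lt_of_le hg1 ht)).continuousAt.continuousWithinAt
      · intro t ht
        rw [interior_Ici] at ht
        exact (hasDeriv_log t (lt_trans hg1 ht)).differentiableAt.differentiableWithinAt
      · intro t ht
        rw [interior_Ici] at ht
        have ht1 : 1 < t := lt_trans hg1 ht
        rw [(hasDeriv_log t ht1).deriv]
        have := Real.log_le_sub_one_of_pos (hpos t ht1)
        linarith
    have hle := hanti (Set.mem_Ici.2 le_rfl) (Set.mem_Ici.2 hgh) hgh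
    rw [Real.rpow_def_of_pos (hpos h hh1), Real.rpow_def_of_pos (hpos g hg1)]
    apply Real.exp_le_exp.2
    simp only at hle
    linarith

theorem hasDeriv_g (s : ℝ) (hs : s < 1) :
    HasDerivAt (fun s : ℝ => Real.log (1 - s) + s + 2 * s ^ 2 / (3 - 2 * s))
      (-1 / (1 - s) + 1 + (4 * s * (3 - 2 * s) + 4 * s ^ 2) / (3 - 2 * s) ^ 2) s := by
  have h1 : HasDerivAt (fun s : ℝ => 1 - s) (-1) s := by
    simpa using (hasDerivAt_id s).const_sub 1
  have hne : 1 - s ≠ 0 := by linarith
  have h2 := h1.log hne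
  have h3 : HasDerivAt (fun s : ℝ => 2 * s ^ 2) (4 * s) s := by
    have := ((hasDerivAt_id s).pow 2).const_mul 2
    refine this.congr_deriv ?_
    simp; ring
  have h4 : HasDerivAt (fun s : ℝ => 3 - 2 * s) (-2) s := by
    have := ((hasDerivAt_id s).const_mul 2).const_sub 3
    simpa using this
  have hne2 : 3 - 2 * s ≠ 0 := by linarith
  have h5 := h3.div h4 hne2
  have h6 := (h2.add (hasDerivAt_id s)).add h5
  refine h6.congr_deriv ?_
  congr 1
  congr 1
  ring

theorem g_nonneg (s : ℝ) (h0 : 0 ≤ s) (h1 : s ≤ 1 / 2) :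
    0 ≤ Real.log (1 - s) + s + 2 * s ^ 2 / (3 - 2 * s) := by
  have hmono : MonotoneOn (fun s : ℝ => Real.log (1 - s) + s + 2 * s ^ 2 / (3 - 2 * s))
      (Set.Icc 0 (1 / 2)) := by
    apply monotoneOn_of_deriv_nonneg (convex_Icc 0 (1 / 2))
    · intro t ht
      exact (hasDeriv_g t (by linarith [ht.2])).continuousAt.continuousWithinAt
    · intro t ht
      rw [interior_Icc] at ht
      exact (hasDeriv_g t (by linarith [ht.2])).differentiableAt.differentiableWithinAt
    · intro t ht
      rw [interior_Icc] at ht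
      have ht0 : 0 < t := ht.1
      have ht1 : t < 1 / 2 := ht.2
      rw [(hasDeriv_g t (by linarith)).deriv]
      have p1 : 0 < 1 - t := by linarith
      have p2 : 0 < 3 - 2 * t := by linarith
      have e : -1 / (1 - t) + 1 + (4 * t * (3 - 2 * t) + 4 * t ^ 2) / (3 - 2 * t) ^ 2 =
          t * (3 - 4 * t) / ((1 - t) * (3 - 2 * t) ^ 2) := by
        have q1 : (1 - t) ≠ 0 := p1.ne'
        have q2 : (3 - 2 * t) ≠ 0 := p2.ne'
        rw [eq_div_iff (mul_ne_zero q1 (pow_ne_zero 2 q2))]
        have r1 : -1 / (1 - t) * ((1 - t) * (3 - 2 * t) ^ 2) = -(3 - 2 * t) ^ 2 := by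
          rw [div_mul_eq_mul_div, ← mul_assoc, neg_one_mul, ← neg_mul_eq_neg_mul]
          rw [neg_div, mul_div_assoc, mul_comm, div_mul_cancel_of_imp (fun h => absurd h q1)]
        have r2 : (4 * t * (3 - 2 * t) + 4 * t ^ 2) / (3 - 2 * t) ^ 2 *
            ((1 - t) * (3 - 2 * t) ^ 2) = (4 * t * (3 - 2 * t) + 4 * t ^ 2) * (1 - t) := by
          rw [mul_comm (1 - t), ← mul_assoc, div_mul_cancel₀ _ (pow_ne_zero 2 q2)]
        rw [add_mul, add_mul, r1, r2]
        ring
      rw [e]
      apply div_nonneg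
      · apply mul_nonneg ht0.le; linarith
      · positivity
  have h := hmono (Set.mem_Icc.2 ⟨le_rfl, by norm_num⟩) (Set.mem_Icc.2 ⟨h0, h1⟩) h0
  simpa using h

theorem rq : S_RQ := by
  intro H hH
  have hH1 : 1 < H := by linarith
  have hder : ∀ t : ℝ, 1 < t →
      HasDerivAt (fun H : ℝ => (H - 1) * Real.log (1 - 1 / H) + Real.log (3 - 2 / H))
        (Real.log (1 - 1 / t) + 1 / t + (2 / t ^ 2) / (3 - 2 / t)) t := by
    intro t ht
    have ht0 : t ≠ 0 := by linarith
    have h1 : HasDerivAt (fun H : ℝ => 3 - 2 / H) (2 / t ^ 2) t := by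
      have h := ((hasDerivAt_inv ht0).const_mul 2).const_sub 3
      have e : (fun H : ℝ => 3 - 2 / H) = (fun H : ℝ => 3 - 2 * H⁻¹) := by
        funext H; rw [div_eq_mul_inv]
      rw [e]
      refine h.congr_deriv ?_
      rw [div_eq_mul_inv]; ring
    have hp : 3 - 2 / t ≠ 0 := by
      have : 2 / t < 2 := by
        rw [div_lt_iff₀ (by linarith)]; linarith
      linarith
    exact (hasDeriv_log t ht).add (h1.log hp)
  have hmono : MonotoneOn (fun H : ℝ => (H - 1) * Real.log (1 - 1 / H) + Real.log (3 - 2 / H))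
      (Set.Ici 2) := by
    apply monotoneOn_of_deriv_nonneg (convex_Ici 2)
    · intro t ht
      exact (hder t (by linarith [Set.mem_Ici.1 ht])).continuousAt.continuousWithinAt
    · intro t ht
      rw [interior_Ici] at ht
      exact (hder t (by linarith [Set.mem_Ioi.1 ht])).differentiableAt.differentiableWithinAt
    · intro t ht
      rw [interior_Ici] at ht
      have ht2 : 2 < t := ht
      rw [(hder t (by linarith)).deriv]
      have hs0 : (0 : ℝ) ≤ 1 / t := by positivity
      have hs1 : 1 / t ≤ 1 / 2 := one_div_le_one_div_of_le (by norm_num) ht2.le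
      have hg := g_nonneg (1 / t) hs0 hs1
      have e : 2 * (1 / t) ^ 2 / (3 - 2 * (1 / t)) = (2 / t ^ 2) / (3 - 2 / t) := by
        have : 2 * (1 / t) = 2 / t := by ring
        rw [this]
        congr 1
        ring
      rw [e] at hg
      exact hg
  have h := hmono (Set.mem_Ici.2 le_rfl) (Set.mem_Ici.2 hH) hH
  have hbase : (0 : ℝ) < 1 - 1 / H := by
    rw [sub_pos, div_lt_one (by linarith)]; exact hH1
  have hp : (0 : ℝ) < 3 - 2 / H := by
    have : 2 / H < 2 := by
      rw [div_lt_iff₀ (by linarith)]; linarith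
    linarith
  have h2 : (fun H : ℝ => (H - 1) * Real.log (1 - 1 / H) + Real.log (3 - 2 / H)) 2 = 0 := by
    have e1 : (1 : ℝ) - 1 / 2 = 2⁻¹ := by norm_num
    have e2 : (3 : ℝ) - 2 / 2 = 2 := by norm_num
    simp only [e1, e2]
    rw [Real.log_inv]
    ring
  rw [h2] at h
  simp only at h
  rw [Real.rpow_def_of_pos hbase]
  calc (1 : ℝ) = Real.exp 0 := Real.exp_zero.symm
    _ ≤ Real.exp ((H - 1) * Real.log (1 - 1 / H) + Real.log (3 - 2 / H)) := Real.exp_le_exp.2 h
    _ = Real.exp (Real.log (1 - 1 / H) * (H - 1)) * (3 - 2 / H) := by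
        rw [Real.exp_add, Real.exp_log hp, mul_comm (H - 1)]

end Pool.Agent.W750.IR
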